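import Mathlib

/-!
# Shortest routes to simplicity never need a swap of two simple edges

A loopy multigraph on a finite vertex set `V` is a multiset of elements of `Sym2 V` (a loop at `v`
is `s(v, v)`).  We prove: for every loopy multigraph with graphical degree sequence there is a
shortest route to simplicity in which every double edge swap removes an edge that is not simple at
that moment.

The point is an exchange lemma: if some sequence of swaps of length `n` leads from `G` to `H` and
the edge type `p` has larger multiplicity in `G` than in `H`, then there is such a sequence of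
the same length whose first swap removes a copy of `p`.  If `G` is not simple, take for `p` a loop
or a multiple edge.
-/

namespace Pool.Agent.Results.MP_742338_co.NonSimpleSwaps

open Multiset

variable {V : Type} [DecidableEq V]

/-- A loopy multigraph with vertex set `V`: a finite multiset of edges. -/
abbrev MGraph (V : Type) := Multiset (Sym2 V)

/-- The number of half-edges of an edge type at the vertex `v` (a loop contributes 2). -/
def ends (v : V) (e : Sym2 V) : ℕ := if e = s(v, v) then 2 else if v ∈ e then 1 else 0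

/-- The degree of `v` in `G`. -/
def deg (G : MGraph V) (v : V) : ℕ := (G.map (ends v)).sum

/-- An edge type of `G` is simple if it is not a loop and has multiplicity one. -/
def SimpleEdge (G : MGraph V) (e : Sym2 V) : Prop := ¬ e.IsDiag ∧ G.count e = 1

/-- A graph is simple if all its edges are simple. -/
def IsSimple (G : MGraph V) : Prop := ∀ e ∈ G, SimpleEdge G e

/-- `Swap G G' e f`: some double edge swap `(v₁,v₂)(v₃,v₄)` with `e = {v₁,v₂}`, `f = {v₃,v₄}`
deletes one copy of `e` and one copy of `f` from `G` and adds `{v₂,v₃}` and `{v₄,v₁}`, with result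
`G'`. -/
def Swap (G G' : MGraph V) (e f : Sym2 V) : Prop :=
  ∃ v₁ v₂ v₃ v₄ : V, e = s(v₁, v₂) ∧ f = s(v₃, v₄) ∧
    ∃ R : MGraph V, G = s(v₁, v₂) ::ₘ s(v₃, v₄) ::ₘ R ∧ G' = s(v₂, v₃) ::ₘ s(v₄, v₁) ::ₘ R

/-- The degree sequence of `G` is graphical: it is the degree sequence of a simple graph `H`, up to
a reordering `σ` of the vertices. -/
def Graphical (G : MGraph V) : Prop :=
  ∃ (H : MGraph V) (σ : Equiv.Perm V), IsSimple H ∧ ∀ v, deg H (σ v) = deg G v

/-- A route to simplicity of length `n` from `G`: graphs `g 0 = G, g 1, …, g n`, where `g (i+1)`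
arises from `g i` by a double edge swap, and `g n` is simple. -/
structure IsRoute (G : MGraph V) (n : ℕ) (g : ℕ → MGraph V) : Prop where
  start : g 0 = G
  step : ∀ i < n, ∃ e f, Swap (g i) (g (i + 1)) e f
  simple : IsSimple (g n)

/-- A route of minimal length. -/
def IsShortestRoute (G : MGraph V) (n : ℕ) (g : ℕ → MGraph V) : Prop :=
  IsRoute G n g ∧ ∀ n' g', IsRoute G n' g' → n ≤ n'

/-! ### Paths of swaps -/

/-- `Path n G H`: some sequence of `n` swaps leads from `G` to `H`. -/
def Path : ℕ → MGraph V → MGraph V → Prop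
  | 0, G, H => G = H
  | n + 1, G, H => ∃ G₁ e f, Swap G G₁ e f ∧ Path n G₁ H

lemma Swap.symm {G G' : MGraph V} {e f : Sym2 V} (h : Swap G G' e f) : Swap G G' f e := by
  obtain ⟨a, b, c, d, he, hf, R, hG, hG'⟩ := h
  refine ⟨c, d, a, b, hf, he, R, ?_, ?_⟩
  · rw [hG, cons_swap]
  · rw [hG', cons_swap]

/-- The exchange lemma. -/
lemma exchange {G G₁ G₂ : MGraph V} {e f p g : Sym2 V} (h₁ : Swap G G₁ e f)
    (h₂ : Swap G₁ G₂ p g) (hp : p ∈ G) (hpe : p ≠ e) (hpf : p ≠ f) :
    ∃ G₁' f' e'' f'', Swap G G₁' p f' ∧ Swap G₁' G₂ e'' f'' := by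
  obtain ⟨a, b, c, d, rfl, rfl, R, rfl, rfl⟩ := h₁
  obtain ⟨u, v, x, y, rfl, rfl, R₂, hG₁, rfl⟩ := h₂
  have hpR : s(u, v) ∈ R := by
    rw [mem_cons, mem_cons] at hp
    rcases hp with hp | hp | hp
    · exact absurd hp hpe
    · exact absurd hp hpf
    · exact hp
  obtain ⟨R', rfl⟩ := exists_cons_of_mem hpR
  have h1 : s(b, c) ::ₘ s(d, a) ::ₘ R' = s(x, y) ::ₘ R₂ := by
    have : s(u, v) ::ₘ (s(b, c) ::ₘ s(d, a) ::ₘ R') = s(u, v) ::ₘ (s(x, y) ::ₘ R₂) := by
      rw [← hG₁, cons_swap, cons_swap (s(u, v)) (s(d, a))]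
    exact (cons_inj_right _).mp this
  have hg : s(x, y) ∈ s(b, c) ::ₘ s(d, a) ::ₘ R' := by rw [h1]; exact mem_cons_self _ _
  rw [mem_cons, mem_cons] at hg
  rcases hg with hg | hg | hg
  · -- g = {b, c}
    rw [hg] at h1
    have h2 : s(d, a) ::ₘ R' = R₂ := (cons_inj_right _).mp h1
    subst h2
    rw [Sym2.eq_iff] at hg
    rcases hg with ⟨rfl, rfl⟩ | ⟨rfl, rfl⟩
    · refine ⟨s(v, x) ::ₘ s(a, u) ::ₘ s(y, d) ::ₘ R', s(x, a), s(a, u), s(y, d),
        ⟨u, v, x, a, rfl, rfl, s(y, d) ::ₘ R', ?_, rfl⟩,
        ⟨a, u, y, d, rfl, rfl, s(v, x) ::ₘ R', ?_, ?_⟩⟩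
      · rw [Sym2.eq_swap (a := x) (b := a)]
        simp only [← singleton_add]; abel
      · simp only [← singleton_add]; abel
      · rw [Sym2.eq_swap (a := y) (b := u)]
        simp only [← singleton_add]; abel
    · refine ⟨s(u, y) ::ₘ s(a, v) ::ₘ s(x, d) ::ₘ R', s(y, a), s(a, v), s(x, d),
        ⟨v, u, y, a, Sym2.eq_swap, rfl, s(x, d) ::ₘ R', ?_, rfl⟩,
        ⟨a, v, x, d, rfl, rfl, s(u, y) ::ₘ R', ?_, ?_⟩⟩
      · rw [Sym2.eq_swap (a := y) (b := a), Sym2.eq_swap (a := v) (b := u)]
        simp only [← singleton_add]; abel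
      · simp only [← singleton_add]; abel
      · rw [Sym2.eq_swap (a := y) (b := u)]
        simp only [← singleton_add]; abel
  · -- g = {d, a}
    rw [cons_swap, hg] at h1
    have h2 : s(b, c) ::ₘ R' = R₂ := (cons_inj_right _).mp h1
    subst h2
    rw [Sym2.eq_iff] at hg
    rcases hg with ⟨rfl, rfl⟩ | ⟨rfl, rfl⟩
    · refine ⟨s(v, x) ::ₘ s(c, u) ::ₘ s(y, b) ::ₘ R', s(x, c), s(c, u), s(y, b),
        ⟨u, v, x, c, rfl, rfl, s(y, b) ::ₘ R', ?_, rfl⟩,
        ⟨c, u, y, b, rfl, rfl, s(v, x) ::ₘ R', ?_, ?_⟩⟩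
      · rw [Sym2.eq_swap (a := x) (b := c)]
        simp only [← singleton_add]; abel
      · simp only [← singleton_add]; abel
      · rw [Sym2.eq_swap (a := y) (b := u)]
        simp only [← singleton_add]; abel
    · refine ⟨s(u, y) ::ₘ s(c, v) ::ₘ s(x, b) ::ₘ R', s(y, c), s(c, v), s(x, b),
        ⟨v, u, y, c, Sym2.eq_swap, rfl, s(x, b) ::ₘ R', ?_, rfl⟩,
        ⟨c, v, x, b, rfl, rfl, s(u, y) ::ₘ R', ?_, ?_⟩⟩
      · rw [Sym2.eq_swap (a := y) (b := c), Sym2.eq_swap (a := v) (b := u)]
        simp only [← singleton_add]; abel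
      · simp only [← singleton_add]; abel
      · rw [Sym2.eq_swap (a := y) (b := u)]
        simp only [← singleton_add]; abel
  · obtain ⟨R'', rfl⟩ := exists_cons_of_mem hg
    have h2 : s(b, c) ::ₘ s(d, a) ::ₘ R'' = R₂ := by
      have : s(x, y) ::ₘ (s(b, c) ::ₘ s(d, a) ::ₘ R'') = s(x, y) ::ₘ R₂ := by
        rw [← h1]
        simp only [← singleton_add]; abel
      exact (cons_inj_right _).mp this
    subst h2
    refine ⟨s(v, x) ::ₘ s(y, u) ::ₘ s(a, b) ::ₘ s(c, d) ::ₘ R'', s(x, y), s(a, b), s(c, d),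
      ⟨u, v, x, y, rfl, rfl, s(a, b) ::ₘ s(c, d) ::ₘ R'', ?_, rfl⟩,
      ⟨a, b, c, d, rfl, rfl, s(v, x) ::ₘ s(y, u) ::ₘ R'', ?_, ?_⟩⟩ <;>
    · simp only [← singleton_add]; abel

lemma count_le_of_swap {G G₁ : MGraph V} {e f p : Sym2 V} (h : Swap G G₁ e f) (hpe : p ≠ e)
    (hpf : p ≠ f) : G.count p ≤ G₁.count p := by
  obtain ⟨a, b, c, d, rfl, rfl, R, rfl, rfl⟩ := h
  rw [count_cons_of_ne hpe, count_cons_of_ne hpf]
  exact (count_le_count_cons _ _ _).trans (count_le_count_cons _ _ _)

/-- If `p` has larger multiplicity in `G` than in `H`, the first swap of a sequence from `G` to `H`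
may be chosen to remove `p`, without changing the length. -/
lemma first_removes {p : Sym2 V} : ∀ (n : ℕ) (G H : MGraph V), Path n G H →
    H.count p < G.count p → ∃ m G₁ f, n = m + 1 ∧ Swap G G₁ p f ∧ Path m G₁ H := by
  intro n
  induction n with
  | zero =>
    intro G H h hlt
    rw [show G = H from h] at hlt
    exact absurd hlt (lt_irrefl _)
  | succ n ih =>
    intro G H h hlt
    obtain ⟨G₁, e, f, hs, hP⟩ := h
    by_cases hpe : p = e
    · subst hpe
      exact ⟨n, G₁, f, rfl, hs, hP⟩
    by_cases hpf : p = f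
    · subst hpf
      exact ⟨n, G₁, e, rfl, hs.symm, hP⟩
    obtain ⟨m, G₂, g, rfl, hs₂, hP₂⟩ := ih G₁ H hP (hlt.trans_le (count_le_of_swap hs hpe hpf))
    have hpG : p ∈ G := count_pos.mp (lt_of_le_of_lt (Nat.zero_le _) hlt)
    obtain ⟨G₁', f', e'', f'', h1, h2⟩ := exchange hs hs₂ hpG hpe hpf
    exact ⟨m + 1, G₁', f', rfl, h1, G₂, e'', f'', h2, hP₂⟩

/-! ### Any two loopy multigraphs with the same degrees are joined by swaps -/

lemma ends_mk (v a b : V) : ends v s(a, b) = (if v = a then 1 else 0) + (if v = b then 1 else 0) := by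
  unfold ends
  by_cases ha : v = a <;> by_cases hb : v = b
  · subst ha; subst hb; simp
  · subst ha
    have : ¬ (b = v) := fun h => hb h.symm
    simp [hb, this]
  · subst hb
    have : ¬ (a = v) := fun h => ha h.symm
    simp [ha, this]
  · have h1 : ¬ (a = v) := fun h => ha h.symm
    simp [ha, hb, h1]

lemma deg_cons (e : Sym2 V) (G : MGraph V) (v : V) : deg (e ::ₘ G) v = ends v e + deg G v := by
  simp [deg]

lemma deg_add (G H : MGraph V) (v : V) : deg (G + H) v = deg G v + deg H v := by
  simp [deg]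

lemma exists_edge {G : MGraph V} {v : V} (h : 0 < deg G v) : ∃ w, s(v, w) ∈ G := by
  have hne : ∃ e ∈ G, ends v e ≠ 0 := by
    by_contra hcon
    push Not at hcon
    have : deg G v = 0 := by
      unfold deg
      rw [Multiset.sum_eq_zero]
      intro x hx
      obtain ⟨e, he, rfl⟩ := mem_map.mp hx
      exact hcon e he
    omega
  obtain ⟨e, he, hne⟩ := hne
  induction e using Sym2.ind with
  | _ a b =>
    rw [ends_mk] at hne
    by_cases ha : v = a
    · subst ha; exact ⟨b, he⟩
    · by_cases hb : v = b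
      · subst hb; exact ⟨a, by rwa [Sym2.eq_swap]⟩
      · simp [ha, hb] at hne

lemma deg_swap {G G₁ : MGraph V} {e f : Sym2 V} (h : Swap G G₁ e f) (v : V) :
    deg G₁ v = deg G v := by
  obtain ⟨a, b, c, d, rfl, rfl, R, rfl, rfl⟩ := h
  simp only [deg_cons, ends_mk]
  omega

lemma connect : ∀ (k : ℕ) (G H : MGraph V), (G - H).card = k → (∀ v, deg G v = deg H v) →
    ∃ n, Path n G H := by
  intro k
  induction k using Nat.strong_induction_on with
  | _ k ih =>
    intro G H hk hdeg
    have hG : G = (G ∩ H) + (G - H) := by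
      ext e; simp only [count_add, count_inter, count_sub]; omega
    have hH : H = (G ∩ H) + (H - G) := by
      ext e; simp only [count_add, count_inter, count_sub]; omega
    have hD : ∀ v, deg (G - H) v = deg (H - G) v := by
      intro v
      have h1 : deg G v = deg (G ∩ H) v + deg (G - H) v := by rw [← deg_add, ← hG]
      have h2 : deg H v = deg (G ∩ H) v + deg (H - G) v := by rw [← deg_add, ← hH]
      have := hdeg v
      omega
    rcases Nat.eq_zero_or_pos k with hk0 | hkpos
    · have hGH : G - H = 0 := by rw [← card_eq_zero, hk, hk0]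
      have hHG : H - G = 0 := by
        by_contra hne
        obtain ⟨e, he⟩ := exists_mem_of_ne_zero hne
        obtain ⟨E, hE⟩ := exists_cons_of_mem he
        induction e using Sym2.ind with
        | _ a b =>
          have := hD a
          rw [hGH, hE, deg_cons, ends_mk] at this
          simp [deg] at this
          omega
      refine ⟨0, ?_⟩
      show G = H
      rw [hG, hGH]
      conv_rhs => rw [hH, hHG]
    · have hne : G - H ≠ 0 := by
        intro h; rw [h] at hk; simp at hk; omega
      obtain ⟨e, he⟩ := exists_mem_of_ne_zero hne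
      induction e using Sym2.ind with
      | _ u v =>
        obtain ⟨E, hE⟩ := exists_cons_of_mem he
        have hv : 0 < deg (H - G) v := by
          rw [← hD v, hE, deg_cons, ends_mk]; simp
        obtain ⟨w, hw⟩ := exists_edge hv
        obtain ⟨D'', hD''⟩ := exists_cons_of_mem hw
        have hEw : 0 < deg E w := by
          have h1 := hD w
          rw [hE, hD'', deg_cons, deg_cons, ends_mk, ends_mk] at h1
          by_cases huw : w = u
          · exfalso
            subst huw
            rw [Sym2.eq_swap] at hw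
            have h2 := count_pos.mpr he
            have h3 := count_pos.mpr hw
            rw [count_sub] at h2 h3
            omega
          · simp only [huw, if_false] at h1
            simp only [if_true] at h1
            omega
        obtain ⟨x, hx⟩ := exists_edge hEw
        obtain ⟨E', hE'⟩ := exists_cons_of_mem hx
        have hGform : G = s(u, v) ::ₘ s(w, x) ::ₘ ((G ∩ H) + E') := by
          conv_lhs => rw [hG, hE, hE']
          simp only [← singleton_add]; abel
        set G₁ : MGraph V := s(v, w) ::ₘ s(x, u) ::ₘ ((G ∩ H) + E') with hG₁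
        have hsw : Swap G G₁ s(u, v) s(w, x) :=
          ⟨u, v, w, x, rfl, rfl, (G ∩ H) + E', hGform, rfl⟩
        have hcard : (G₁ - H).card < k := by
          have h1 : G₁ = (s(x, u) ::ₘ E') + (s(v, w) ::ₘ (G ∩ H)) := by
            rw [hG₁]; simp only [← singleton_add]; abel
          have h2 : H = D'' + (s(v, w) ::ₘ (G ∩ H)) := by
            conv_lhs => rw [hH, hD'']
            simp only [← singleton_add]; abel
          have key : ∀ X Y : MGraph V, G₁ = (s(x, u) ::ₘ E') + X → Y = D'' + X →
              G₁ - Y = (s(x, u) ::ₘ E') - D'' := by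
            intro X Y hX hY
            rw [hX, hY]
            exact add_tsub_add_eq_tsub_right _ _ _
          have h3 : G₁ - H = (s(x, u) ::ₘ E') - D'' := key _ _ h1 h2
          have h4 : (G₁ - H).card ≤ (s(x, u) ::ₘ E').card := by
            rw [h3]; exact card_le_card (Multiset.sub_le_self _ _)
          have h5 : k = E'.card + 2 := by
            rw [← hk, hE, hE']; simp
          rw [card_cons] at h4
          omega
        obtain ⟨n, hn⟩ := ih _ hcard G₁ H rfl (fun y => by rw [deg_swap hsw]; exact hdeg y)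
        exact ⟨n + 1, G₁, _, _, hsw, hn⟩

/-! ### The theorem -/

lemma path_of_route : ∀ (n : ℕ) (G : MGraph V) (g : ℕ → MGraph V),
    g 0 = G → (∀ i < n, ∃ e f, Swap (g i) (g (i + 1)) e f) → Path n G (g n) := by
  intro n
  induction n with
  | zero => intro G g h0 _; exact h0.symm
  | succ n ih =>
    intro G g h0 hs
    obtain ⟨e, f, hef⟩ := hs 0 (Nat.succ_pos n)
    refine ⟨g 1, e, f, ?_, ?_⟩
    · rw [← h0]; exact hef
    · exact ih (g 1) (fun i => g (i + 1)) rfl (fun i hi => hs (i + 1) (by omega))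

lemma exists_nonsimple {G H : MGraph V} (hG : ¬ IsSimple G) (hH : IsSimple H) :
    ∃ p, ¬ SimpleEdge G p ∧ H.count p < G.count p := by
  unfold IsSimple at hG
  push Not at hG
  obtain ⟨p, hpG, hp⟩ := hG
  refine ⟨p, hp, ?_⟩
  have h1 : 0 < G.count p := count_pos.mpr hpG
  by_cases hpH : p ∈ H
  · obtain ⟨hd, hc⟩ := hH p hpH
    have : G.count p ≠ 1 := fun h => hp ⟨hd, h⟩
    omega
  · rw [count_eq_zero.mpr hpH]; exact h1

lemma good_route : ∀ (n : ℕ) (G H : MGraph V), IsSimple H → Path n G H →
    (∀ m H', IsSimple H' → Path m G H' → n ≤ m) →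
    ∃ g, IsRoute G n g ∧ ∀ i < n, ∃ e f, Swap (g i) (g (i + 1)) e f ∧
      ¬ (SimpleEdge (g i) e ∧ SimpleEdge (g i) f) := by
  intro n
  induction n with
  | zero =>
    intro G H hH hP _
    have hGH : G = H := hP
    subst hGH
    exact ⟨fun _ => G, ⟨rfl, by omega, hH⟩, by omega⟩
  | succ n ih =>
    intro G H hH hP hmin
    have hG : ¬ IsSimple G := by
      intro h
      have := hmin 0 G h rfl
      omega
    obtain ⟨p, hp, hlt⟩ := exists_nonsimple hG hH
    obtain ⟨m, G₁, f₀, hm, hs, hP₁⟩ := first_removes (n + 1) G H hP hlt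
    have hmn : m = n := by omega
    subst hmn
    obtain ⟨g, hR, hns⟩ := ih G₁ H hH hP₁ (fun m' H' hH' hP' => by
      have := hmin (m' + 1) H' hH' ⟨G₁, p, f₀, hs, hP'⟩
      omega)
    refine ⟨fun i => match i with | 0 => G | i + 1 => g i, ⟨rfl, ?_, hR.simple⟩, ?_⟩
    · intro i hi
      cases i with
      | zero =>
        refine ⟨p, f₀, ?_⟩
        show Swap G (g 0) p f₀
        rw [hR.start]; exact hs
      | succ i => exact hR.step i (by omega)
    · intro i hi
      cases i with
      | zero =>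
        refine ⟨p, f₀, ?_, fun h => hp h.1⟩
        show Swap G (g 0) p f₀
        rw [hR.start]; exact hs
      | succ i => exact hns i (by omega)

/-! ### Relabelling the vertices -/

lemma ends_map (σ : Equiv.Perm V) (v : V) (e : Sym2 V) :
    ends v (e.map σ.symm) = ends (σ v) e := by
  induction e using Sym2.ind with
  | _ a b =>
    rw [Sym2.map_mk, ends_mk, ends_mk]
    have h : ∀ x : V, (v = σ.symm x) ↔ (σ v = x) := fun x => Equiv.eq_symm_apply σ
    simp only [h]

lemma deg_map (σ : Equiv.Perm V) (H : MGraph V) (v : V) :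
    deg (H.map (Sym2.map σ.symm)) v = deg H (σ v) := by
  unfold deg
  rw [map_map]
  congr 1
  exact map_congr rfl (fun e _ => ends_map σ v e)

lemma isSimple_map (σ : Equiv.Perm V) {H : MGraph V} (hH : IsSimple H) :
    IsSimple (H.map (Sym2.map σ.symm)) := by
  intro e he
  obtain ⟨e', he', rfl⟩ := mem_map.mp he
  obtain ⟨hd, hc⟩ := hH e' he'
  refine ⟨?_, ?_⟩
  · rw [Sym2.isDiag_map σ.symm.injective]; exact hd
  · rw [count_map_eq_count' _ _ (Sym2.map.injective σ.symm.injective)]; exact hc

/-- **Main theorem** (negated form of Q1): for every loopy multigraph `G` on a finite vertex set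
with a graphical degree sequence there is a shortest route to simplicity, all of whose double edge
swaps can be chosen so that not both removed edges are simple (before the swap). -/
theorem result (V : Type) [Fintype V] [DecidableEq V] (G : MGraph V) (hG : Graphical G) :
    ∃ (n : ℕ) (g : ℕ → MGraph V), IsShortestRoute G n g ∧
      ∀ i < n, ∃ e f, Swap (g i) (g (i + 1)) e f ∧
        ¬ (SimpleEdge (g i) e ∧ SimpleEdge (g i) f) := by
  classical
  obtain ⟨H, σ, hH, hdeg⟩ := hG
  obtain ⟨n₀, hn₀⟩ := connect _ G (H.map (Sym2.map σ.symm)) rfl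
    (fun v => by rw [deg_map, hdeg])
  have hex : ∃ n, ∃ H', IsSimple H' ∧ Path n G H' := ⟨n₀, _, isSimple_map σ hH, hn₀⟩
  obtain ⟨H', hH', hP⟩ := Nat.find_spec hex
  have hmin : ∀ m H'', IsSimple H'' → Path m G H'' → Nat.find hex ≤ m := fun m H'' h1 h2 =>
    Nat.find_min' hex ⟨H'', h1, h2⟩
  obtain ⟨g, hR, hgood⟩ := good_route _ G H' hH' hP hmin
  exact ⟨Nat.find hex, g, ⟨hR, fun n' g' hR' =>
    hmin n' (g' n') hR'.simple (path_of_route n' G g' hR'.start hR'.step)⟩, hgood⟩

end Pool.Agent.Results.MP_742338_co.NonSimpleSwaps
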